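import Pool.Agent.Y16.AF.StmB

/-!
# AF2-WF: the formula for the fluctuation
-/

set_option autoImplicit false

open MeasureTheory Matrix Filter
open scoped Matrix.Norms.Frobenius Topology

namespace Pool.Agent.Y809.AF

open Pool.Agent.Y16.AF

/-- derivative of a determinant at the origin -/
theorem det_deriv {ι : Type*} [Fintype ι] [DecidableEq ι] (A B : Matrix ι ι ℝ)
    (hA : A.det ≠ 0) :
    HasDerivAt (fun lam : ℝ => (A + lam • B).det) (A.det * trace (A⁻¹ * B)) 0 := by
  have hu : IsUnit A.det := isUnit_iff_ne_zero.2 hA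
  have h1 : ∀ lam : ℝ, (A + lam • B).det = A.det * (1 + lam • (A⁻¹ * B)).det := by
    intro lam
    rw [← det_mul, mul_add, mul_one, mul_smul_comm, ← Matrix.mul_assoc, mul_nonsing_inv _ hu,
      Matrix.one_mul]
  have h2 : (fun lam : ℝ => (A + lam • B).det) = fun lam => A.det * (1 + trace (A⁻¹ * B) * lam +
      (det (1 + (Polynomial.X : Polynomial ℝ) • (A⁻¹ * B).map Polynomial.C)).divX.divX.eval lam *
        lam ^ 2) := by
    funext lam
    rw [h1, det_one_add_smul]
  rw [h2]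
  set p := (det (1 + (Polynomial.X : Polynomial ℝ) • (A⁻¹ * B).map Polynomial.C)).divX.divX
  have h3 := (((hasDerivAt_id' (0 : ℝ)).const_mul (trace (A⁻¹ * B))).const_add 1).fun_add
    ((p.hasDerivAt 0).fun_mul ((hasDerivAt_id' (0 : ℝ)).fun_pow 2))
  have h4 := h3.const_mul A.det
  refine h4.congr_deriv ?_
  simp

/-- logarithmic derivative of a product -/
theorem prod_deriv {κ : Type*} [DecidableEq κ] (s : Finset κ) (P : κ → ℝ → ℂ) (w : κ → ℂ)
    (h : ∀ k ∈ s, HasDerivAt (P k) (P k 0 * w k) 0) :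
    HasDerivAt (fun x => ∏ k ∈ s, P k x) ((∏ k ∈ s, P k 0) * ∑ k ∈ s, w k) 0 := by
  induction s using Finset.induction_on with
  | empty =>
    simp only [Finset.prod_empty, Finset.sum_empty, mul_zero]
    exact hasDerivAt_const _ _
  | insert a s ha ih =>
    have h1 := (h a (Finset.mem_insert_self a s)).fun_mul
      (ih fun k hk => h k (Finset.mem_insert_of_mem hk))
    simp only [Finset.prod_insert ha, Finset.sum_insert ha]
    refine h1.congr_deriv ?_
    ring

theorem af_wf : S_WF := by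
  intro hPOS hSYM hK00 hHPD hEN L _ hL
  have hdet : 0 < (rs (Hm (L := L))).det := (hHPD L hL).1.det_pos
  set A := rs (Hm (L := L)) with hA
  set B := rs (H01 (L := L)) with hB
  have h1 : HasDerivAt (fun lam : ℝ => (((A + lam • B).det : ℝ) : ℂ))
      ((A.det * trace (A⁻¹ * B) : ℝ) : ℂ) 0 := (det_deriv A B hdet.ne').ofReal_comp
  have h2 := prod_deriv (nz L)
    (fun k (lam : ℝ) => det ((Matrix.of (hL0 (L := L) lam (zk k))).submatrix (jJ L) (jJ L)))
    (fun k => ((WF L (ang k 0) (en k) : ℝ) : ℂ)) (fun k hk => by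
      have hk0 : k ≠ 0 := by
        unfold nz at hk
        exact (Finset.mem_filter.1 hk).2
      exact (hSYM hEN L hL k hk0).2)
  have h3 := (h2.const_mul (1 / (L : ℂ) ^ 3)).fun_mul (hK00 L hL).2
  have h4 : (fun lam : ℝ => (((A + lam • B).det : ℝ) : ℂ)) = fun lam : ℝ => (1 / (L : ℂ) ^ 3) *
      (∏ k ∈ nz L, det ((Matrix.of (hL0 (L := L) lam (zk k))).submatrix (jJ L) (jJ L))) *
      det ((Matrix.of (hL0 (L := L) lam 1)).submatrix
        (Sum.inr : Fin (L - 1) × Fin 3 → AL L) (Sum.inr : Fin (L - 1) × Fin 3 → AL L)) := by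
    funext lam
    exact hPOS L hL lam
  have h0 := hPOS L hL 0
  rw [zero_smul, add_zero] at h0
  rw [h4] at h1
  have h5 := h1.unique h3
  have h6 : ((A.det : ℝ) : ℂ) * ((trace (A⁻¹ * B) : ℝ) : ℂ) = ((A.det : ℝ) : ℂ) *
      (((∑ k ∈ nz L, WF L (ang k 0) (en k)) + ((L : ℝ) - 1) : ℝ) : ℂ) := by
    rw [Complex.ofReal_mul] at h5
    rw [h5, h0]
    push_cast
    ring
  have h7 : ((A.det : ℝ) : ℂ) ≠ 0 := by exact_mod_cast hdet.ne'
  have h8 := mul_left_cancel₀ h7 h6
  exact_mod_cast h8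

end Pool.Agent.Y809.AF
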